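import Pool.Agent.H465Z.QIDefs
import Pool.Agent.H465Z.QIProof

namespace Pool.Agent.Results.MP_40d5d3_al.ANotCoarse

open Pool.Agent.H465Z.QI

/-- The free 2-step nilpotent Lie group `N` of rank 3 (a Carnot group, equal to its own asymptotic
cone) has no Heisenberg factor, indeed no nontrivial direct product decomposition at all, and it
has a self-map that is a quasiisometry both for the left-invariant Riemannian distance and for the
Carnot distance but does not coarsely permute the left cosets of `N₂ = [N, N]`. -/
theorem result :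
    (∀ n : ℕ, 1 ≤ n → ∀ (G : Type) [Group G], IsEmpty (N ≃* Heis n × G)) ∧
    (∀ (A G : Type) [Group A] [Group G],
      Nonempty (N ≃* A × G) → Subsingleton A ∨ Subsingleton G) ∧
    ∃ f : N → N,
      (IsQuasiIsometry dRiem f ∧
        ¬ CoarselyPermutes dRiem f ((⊤ : Subgroup N).lowerCentralSeries 1)) ∧
      (IsQuasiIsometry dCarnot f ∧
        ¬ CoarselyPermutes dCarnot f ((⊤ : Subgroup N).lowerCentralSeries 1)) :=
  ⟨fun n hn G _ => no_heis n hn G, fun A G _ _ ⟨ψ⟩ => indecomposable A G ψ,
    F 1, ⟨F_qi comp_riem, F_not comp_riem⟩, ⟨F_qi comp_carnot, F_not comp_carnot⟩⟩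

end Pool.Agent.Results.MP_40d5d3_al.ANotCoarse
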